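import Pool.Agent.N748.HM.Stm

set_option autoImplicit false

/-!
# HM, CL: pointwise comparison of zeta with the polynomials over the blocks
-/

namespace Pool.Agent.V5helper27.HM

open Finset Filter MeasureTheory MonoidAlgebra Topology Complex
open Pool.Agent.N748.GC
open Pool.Agent.N748.HM
open Pool.Agent.Y755 (P1 Bd1 es Dt qd Pz)

namespace CL

/-! ## Logarithms -/

lemma log_near {x ε : ℝ} (h : |x - 1| ≤ ε) (hε : ε ≤ 1 / 2) : 0 < x ∧ |Real.log x| ≤ 2 * ε := by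
  have h0 := abs_le.1 h
  have hx : 0 < x := by linarith
  refine ⟨hx, abs_le.2 ⟨?_, ?_⟩⟩
  · have h1 := Real.one_sub_inv_le_log_of_pos hx
    have h2 : x⁻¹ ≤ 1 + 2 * ε := by
      rw [inv_le_comm₀ hx (by linarith)]
      have h3 : (1 + 2 * ε)⁻¹ ≤ 1 - ε := by
        rw [inv_le_iff_one_le_mul₀ (by linarith)]
        nlinarith
      linarith
    linarith
  · have := Real.log_le_sub_one_of_pos hx
    linarith

lemma log_norm {w : ℂ} (h : ‖w‖ ≤ 1 / 2) : |Real.log ‖1 + w‖| ≤ 2 * ‖w‖ := by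
  refine (log_near ?_ h).2
  have h1 : ‖1 + w‖ ≤ 1 + ‖w‖ := by
    have := norm_add_le (1 : ℂ) w
    rwa [norm_one] at this
  have h2 : 1 - ‖w‖ ≤ ‖1 + w‖ := by
    have := norm_sub_le (1 + w) w
    rw [add_sub_cancel_right, norm_one] at this
    linarith
  exact abs_le.2 ⟨by linarith, by linarith⟩

lemma exp_near {x : ℝ} (h : |x| ≤ 1) : |Real.exp x - 1| ≤ 2 * |x| := Real.abs_exp_sub_one_le h

lemma exp_bd : Real.exp (21 / 20) ≤ 10 / 3 := by
  have h1 : Real.exp (21 / 20) = Real.exp 1 * Real.exp (1 / 20) := by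
    rw [← Real.exp_add]; norm_num
  have h2 := Real.exp_one_lt_d9
  have h3 : Real.exp (1 / 20) ≤ 20 / 19 := by
    have h4 := Real.one_sub_le_exp_neg (1 / 20)
    rw [Real.exp_neg] at h4
    have h5 := Real.exp_pos (1 / 20)
    rw [← one_div, le_div_iff₀ h5] at h4
    linarith
  rw [h1]
  calc Real.exp 1 * Real.exp (1 / 20) ≤ 2.7182818286 * (20 / 19) := by
        gcongr
    _ ≤ 10 / 3 := by norm_num

/-- the truncated exponential -/
lemma texp {x : ℂ} {n : ℕ} (hn : 1 ≤ n) (h : 20 * ‖x‖ ≤ n) :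
    ∑ k ∈ range (n + 1), x ^ k / (k.factorial : ℂ) ≠ 0 ∧
    |Real.log ‖∑ k ∈ range (n + 1), x ^ k / (k.factorial : ℂ)‖ - x.re| ≤ 4 * (1 / 6 : ℝ) ^ n := by
  set T := ∑ k ∈ range (n + 1), x ^ k / (k.factorial : ℂ) with hT
  have hx0 := norm_nonneg x
  have hnr : (1:ℝ) ≤ n := by exact_mod_cast hn
  have h1 := Complex.exp_bound' (x := x) (n := n + 1) (by
    rw [div_le_iff₀ (by positivity)]
    push_cast
    linarith)
  rw [← hT] at h1
  -- the size of the error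
  have h2 : ‖x‖ ^ (n + 1) / ((n + 1).factorial : ℝ) ≤ (Real.exp 1 / 20) ^ (n + 1) := by
    have h3 : ‖x‖ ≤ ((n + 1 : ℕ) : ℝ) / 20 := by push_cast; linarith
    have h4 : ‖x‖ ^ (n + 1) ≤ (((n + 1 : ℕ) : ℝ) / 20) ^ (n + 1) := by gcongr
    have h5 := Real.pow_div_factorial_le_exp (x := ((n + 1 : ℕ) : ℝ)) (by positivity) (n + 1)
    calc ‖x‖ ^ (n + 1) / ((n + 1).factorial : ℝ)
        ≤ (((n + 1 : ℕ) : ℝ) / 20) ^ (n + 1) / ((n + 1).factorial : ℝ) := by gcongr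
      _ = (1 / 20) ^ (n + 1) * (((n + 1 : ℕ) : ℝ) ^ (n + 1) / ((n + 1).factorial : ℝ)) := by
          rw [div_pow, div_pow, one_pow]
          ring
      _ ≤ (1 / 20) ^ (n + 1) * Real.exp ((n + 1 : ℕ) : ℝ) := by gcongr
      _ = (Real.exp 1 / 20) ^ (n + 1) := by
          rw [div_pow, div_pow, one_pow, ← Real.exp_nat_mul]
          ring_nf
  set w := T * Complex.exp (-x) - 1 with hw
  have hTw : T = Complex.exp x * (1 + w) := by
    rw [hw]
    have : Complex.exp x * Complex.exp (-x) = 1 := by rw [← Complex.exp_add]; simp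
    linear_combination (-T) * this
  have hwn : ‖w‖ ≤ 2 * (1 / 6) ^ (n + 1) := by
    have e : w = -((Complex.exp x - T) * Complex.exp (-x)) := by
      rw [hw]
      have : Complex.exp x * Complex.exp (-x) = 1 := by rw [← Complex.exp_add]; simp
      linear_combination this
    rw [e, norm_neg, norm_mul]
    have h6 : ‖Complex.exp (-x)‖ ≤ Real.exp (1 / 20) ^ (n + 1) := by
      rw [Complex.norm_exp, ← Real.exp_nat_mul]
      apply Real.exp_le_exp.2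
      have := (abs_le.1 (Complex.abs_re_le_norm x)).1
      rw [neg_re]
      push_cast
      linarith
    calc ‖Complex.exp x - T‖ * ‖Complex.exp (-x)‖
        ≤ ((Real.exp 1 / 20) ^ (n + 1) * 2) * Real.exp (1 / 20) ^ (n + 1) := by
          gcongr
          exact h1.trans (by gcongr)
      _ = 2 * (Real.exp (21 / 20) / 20) ^ (n + 1) := by
          have : Real.exp (21 / 20) / 20 = Real.exp 1 / 20 * Real.exp (1 / 20) := by
            rw [div_mul_eq_mul_div, ← Real.exp_add]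
            norm_num
          rw [this, mul_pow]
          ring
      _ ≤ 2 * (1 / 6) ^ (n + 1) := by
          have h12 := exp_bd
          have h13 : Real.exp (21 / 20) / 20 ≤ 1 / 6 := by linarith
          exact mul_le_mul_of_nonneg_left (pow_le_pow_left₀ (by positivity) h13 _) (by norm_num)
  have h7 : (1 / 6 : ℝ) ^ (n + 1) ≤ (1 / 6) ^ n / 6 := by rw [pow_succ]; linarith
  have h8 : (1 / 6 : ℝ) ^ n ≤ 1 := pow_le_one₀ (by norm_num) (by norm_num)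
  have hw2 : ‖w‖ ≤ 1 / 2 := by linarith
  have h9 : 1 + w ≠ 0 := by
    intro h0
    have : w = -1 := by linear_combination h0
    rw [this, norm_neg, norm_one] at hw2
    norm_num at hw2
  have h10 : Real.log ‖T‖ = x.re + Real.log ‖1 + w‖ := by
    rw [hTw, norm_mul, Real.log_mul (norm_ne_zero_iff.2 (Complex.exp_ne_zero x))
      (norm_ne_zero_iff.2 h9), Complex.norm_exp, Real.log_exp]
  refine ⟨by rw [hTw]; exact mul_ne_zero (Complex.exp_ne_zero x) h9, ?_⟩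
  rw [h10, add_sub_cancel_left]
  have := log_norm hw2
  have h11 : (0:ℝ) < (1 / 6) ^ n := by positivity
  linarith

/-- one factor of the Euler product -/
lemma fac {w : ℂ} (hw : ‖w‖ ≤ 1 / 2) :
    |Real.log ‖1 - w‖ + w.re + (w ^ 2).re / 2| ≤ ‖w‖ ^ 3 := by
  have h := Complex.norm_log_sub_logTaylor_le 2 (z := -w) (by rw [norm_neg]; linarith)
  have e : Complex.logTaylor (2 + 1) (-w) = -w - w ^ 2 / 2 := by
    simp only [Complex.logTaylor, Finset.sum_range_succ, Finset.sum_range_zero]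
    norm_num
    ring
  rw [e, norm_neg] at h
  have h1 : |(Complex.log (1 + -w) - (-w - w ^ 2 / 2)).re| ≤
      ‖w‖ ^ (2 + 1) * (1 - ‖w‖)⁻¹ / (2 + 1) := (Complex.abs_re_le_norm _).trans (by exact_mod_cast h)
  have e2 : (Complex.log (1 + -w) - (-w - w ^ 2 / 2)).re =
      Real.log ‖1 - w‖ + w.re + (w ^ 2).re / 2 := by
    have e3 : (w ^ 2 / 2 : ℂ).re = (w ^ 2).re / 2 := by
      rw [show (w ^ 2 / 2 : ℂ) = w ^ 2 / ((2:ℝ) : ℂ) by norm_num, Complex.div_ofReal_re]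
    rw [sub_re, sub_re, neg_re, Complex.log_re, e3, ← sub_eq_add_neg]
    ring
  rw [e2] at h1
  refine h1.trans ?_
  have h2 : (1 - ‖w‖)⁻¹ ≤ 2 := by
    rw [inv_le_comm₀ (by linarith) (by norm_num)]
    linarith
  have h3 := norm_nonneg w
  calc ‖w‖ ^ (2 + 1) * (1 - ‖w‖)⁻¹ / (2 + 1) ≤ ‖w‖ ^ (2 + 1) * 2 / (2 + 1) := by gcongr
    _ ≤ ‖w‖ ^ 3 := by
      have : 0 ≤ ‖w‖ ^ 3 := by positivity
      norm_num
      linarith

/-! ## The blocks -/

lemma be_zero (y : ℝ) (hy : 0 < y) : be y 0 = y := by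
  unfold be
  rw [pow_zero, mul_one, Real.exp_log hy]

lemma mem_IB {z : ℕ} {y : ℝ} {i p : ℕ} : p ∈ IB z y i ↔
    p.Prime ∧ 144 ≤ p ∧ be y (i + 1) < (p:ℝ) ∧ (p:ℝ) ≤ be y i ∧ z ≤ p := by
  unfold IB
  rw [Finset.mem_filter, Finset.mem_filter, Finset.mem_Icc]
  constructor
  · rintro ⟨⟨⟨h1, h2⟩, h3, h4, h5⟩, h6⟩
    exact ⟨h3, h4, h5, (Nat.le_floor_iff (Real.exp_pos _).le).1 h2, h6⟩
  · rintro ⟨h3, h4, h5, h2, h6⟩
    exact ⟨⟨⟨h3.one_lt.le, Nat.le_floor h2⟩, h3, h4, h5⟩, h6⟩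

lemma mem_PP {z : ℕ} {y : ℝ} (hy : 0 ≤ y) {p : ℕ} : p ∈ PP z y ↔ p.Prime ∧ z ≤ p ∧ (p:ℝ) ≤ y := by
  unfold PP
  rw [Finset.mem_filter, Finset.mem_Icc, Nat.le_floor_iff hy]
  tauto

lemma be_anti {y : ℝ} (hy : 1 ≤ y) {i j : ℕ} (h : i ≤ j) : be y j ≤ be y i := by
  unfold be
  apply Real.exp_le_exp.2
  have := Real.log_nonneg hy
  have h2 : (1 / 4 : ℝ) ^ j ≤ (1 / 4) ^ i := pow_le_pow_of_le_one (by norm_num) (by norm_num) h
  gcongr

lemma PP_eq {z J : ℕ} {y : ℝ} (hz : 144 ≤ z) (hzy : (z:ℝ) ≤ y) (hJ : be y J < 144) :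
    PP z y = (range J).biUnion (IB z y) := by
  have hz' : (144:ℝ) ≤ z := by exact_mod_cast hz
  have hy : 0 < y := by linarith
  ext p
  rw [mem_PP hy.le, Finset.mem_biUnion]
  constructor
  · rintro ⟨h1, h2, h3⟩
    have h2' : (z:ℝ) ≤ p := by exact_mod_cast h2
    have hex : ∃ i, be y i < (p:ℝ) := ⟨J, by linarith⟩
    classical
    set i0 := Nat.find hex with hi0
    have h4 : be y i0 < p := Nat.find_spec hex
    have h5 : i0 ≤ J := Nat.find_min' hex (by linarith)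
    have h6 : i0 ≠ 0 := by
      intro h
      rw [h, be_zero y hy] at h4
      linarith
    obtain ⟨i, hi⟩ := Nat.exists_eq_succ_of_ne_zero h6
    have h7 : ¬ be y i < (p:ℝ) := Nat.find_min hex (by rw [← hi0, hi]; exact Nat.lt_succ_self i)
    refine ⟨i, Finset.mem_range.2 (by omega), mem_IB.2 ⟨h1, hz.trans h2, ?_, not_lt.1 h7, h2⟩⟩
    rw [← Nat.succ_eq_add_one, ← hi]
    exact h4
  · rintro ⟨i, -, h⟩
    obtain ⟨h1, -, -, h4, h5⟩ := mem_IB.1 h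
    refine ⟨h1, h5, h4.trans ?_⟩
    have := be_anti (y := y) (by linarith) (Nat.zero_le i)
    rwa [be_zero y hy] at this

lemma sum_PP {M : Type} [AddCommMonoid M] {z J : ℕ} {y : ℝ} (hz : 144 ≤ z) (hzy : (z:ℝ) ≤ y)
    (hJ : be y J < 144) (f : ℕ → M) : ∑ p ∈ PP z y, f p = ∑ i ∈ range J, ∑ p ∈ IB z y i, f p := by
  have hz' : (144:ℝ) ≤ z := by exact_mod_cast hz
  have hy : 1 ≤ y := by linarith
  rw [PP_eq hz hzy hJ, Finset.sum_biUnion]
  intro i _ j _ hij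
  rw [Function.onFun, Finset.disjoint_left]
  intro p hp hp'
  obtain ⟨-, -, h1, h2, -⟩ := mem_IB.1 hp
  obtain ⟨-, -, h3, h4, -⟩ := mem_IB.1 hp'
  rcases lt_or_gt_of_ne hij with h | h
  · have := be_anti hy (show i + 1 ≤ j from h)
    linarith
  · have := be_anti hy (show j + 1 ≤ i from h)
    linarith

/-! ## Values of the polynomials -/

lemma ec_xc (s : ℂ) (I : Finset ℕ) : ec s (xc I) = ∑ p ∈ I, (p:ℂ) ^ (-s) := by
  unfold xc
  rw [map_sum]
  exact Finset.sum_congr rfl fun p _ => by rw [ec_single, one_mul]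

lemma ec_NKc (s : ℂ) (K : ℕ) (a : ℝ) (Z : PC) :
    ec s (NKc K a Z) = ∑ k ∈ range (K + 1), ((a:ℂ) * ec s Z) ^ k / (k.factorial : ℂ) := by
  unfold NKc
  rw [map_sum]
  refine Finset.sum_congr rfl fun k _ => ?_
  rw [map_smul, map_pow, smul_eq_mul, mul_pow]
  push_cast
  ring

lemma ec_sq (s : ℂ) (z : ℕ) (y : ℝ) :
    ec s (∑ p ∈ PP z y, single (p ^ 2) (1 / 2 : ℂ)) = ∑ p ∈ PP z y, ((p:ℂ) ^ (-s)) ^ 2 / 2 := by
  rw [map_sum]
  refine Finset.sum_congr rfl fun p _ => ?_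
  have h1 : (((p ^ 2 : ℕ) : ℂ)) ^ (-s) = ((p:ℂ) ^ (-s)) ^ 2 := by
    have := map_pow (hsc s) p 2
    exact this
  rw [ec_single, h1]
  ring

lemma norm_ps {p : ℕ} (hp : 0 < p) (δ u : ℝ) :
    ‖(p:ℂ) ^ (-(1 / 2 + δ + u * I : ℂ))‖ = (p:ℝ) ^ (-(1 / 2 + δ)) := by
  rw [Complex.norm_natCast_cpow_of_pos hp]
  congr 1
  simp

/-- tails of the sum of `p^(-3/2)` -/
lemma tail {ε : ℝ} (hε : 0 < ε) : ∃ z0 : ℕ, ∀ F : Finset ℕ, (∀ p ∈ F, z0 ≤ p) →
    ∑ p ∈ F, (p:ℝ) ^ (-(3 / 2 : ℝ)) ≤ ε := by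
  have hs : Summable fun n : ℕ => (n:ℝ) ^ (-(3 / 2 : ℝ)) :=
    Real.summable_nat_rpow.2 (by norm_num)
  obtain ⟨t, ht⟩ := (summable_iff_vanishing_norm.1 hs) ε hε
  refine ⟨t.sup id + 1, fun F hF => ?_⟩
  have h1 := ht F (by
    rw [Finset.disjoint_left]
    intro p hp hp'
    have := hF p hp
    have h2 : p ≤ t.sup id := Finset.le_sup (f := id) hp'
    omega)
  exact (le_abs_self _).trans h1.le

lemma blocks_sum (Rs J : ℕ) : ∑ i ∈ range J, (1 / 6 : ℝ) ^ (20 * RB Rs i) ≤ 2 * (1 / 6) ^ Rs := by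
  have h1 : ∀ i ∈ range J, (1 / 6 : ℝ) ^ (20 * RB Rs i) ≤ (1 / 6) ^ Rs * (1 / 6) ^ i := by
    intro i _
    rw [← pow_add]
    exact pow_le_pow_of_le_one (by norm_num) (by norm_num) (by unfold RB; omega)
  refine (Finset.sum_le_sum h1).trans ?_
  rw [← Finset.mul_sum]
  have h2 : ∑ i ∈ range J, (1 / 6 : ℝ) ^ i ≤ 2 := by
    have h3 := (summable_geometric_of_lt_one (r := (1 / 6 : ℝ)) (by norm_num) (by norm_num))
    have h4 := h3.sum_le_tsum (range J) (fun i _ => by positivity)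
    rw [tsum_geometric_of_lt_one (by norm_num) (by norm_num)] at h4
    norm_num at h4 ⊢
    linarith
  have h5 : (0:ℝ) ≤ (1 / 6) ^ Rs := by positivity
  nlinarith

lemma Ph_prod (z : ℕ) (δ u : ℝ) : Ph z δ (pt (Sm z) u) =
    ‖∏ p ∈ Sm z, (1 - (p:ℂ) ^ (-(1 / 2 + δ + u * I : ℂ)))‖ := by
  unfold Ph
  rw [norm_prod, ← Finset.prod_coe_sort (Sm z)
    (fun p : ℕ => ‖1 - (p:ℂ) ^ (-(1 / 2 + δ + u * I : ℂ))‖)]
  refine prod_congr rfl fun p _ => ?_
  have h1 := four_pt p ((QC.Sm_prime z p p.2).ne_zero) (1 / 2 + δ) u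
  push_cast at h1
  rw [h1]

/-- the blocks -/
lemma log_BP {A : ℕ} {α : ℝ} (hα : 0 < α) (hαA : α ≤ A) {z Rs J : ℕ} {y δ u : ℝ} (hz : 144 ≤ z)
    (hzy : (z:ℝ) ≤ y) (hJ : be y J < 144) (hR : 1 ≤ Rs) (hG : G1 A z Rs y J δ u) :
    ec (1 / 2 + δ + u * I) (BP (fun _ => α) z y 0 J Rs) ≠ 0 ∧
    |Real.log ‖ec (1 / 2 + δ + u * I) (BP (fun _ => α) z y 0 J Rs)‖ -
      α * (∑ p ∈ PP z y, (p:ℂ) ^ (-(1 / 2 + δ + u * I : ℂ))).re| ≤ 8 * (1 / 6) ^ Rs := by
  set s : ℂ := 1 / 2 + δ + u * I with hs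
  have hT : ∀ i ∈ range J, ec s (NKc (20 * RB Rs i) α (xc (IB z y i))) ≠ 0 ∧
      |Real.log ‖ec s (NKc (20 * RB Rs i) α (xc (IB z y i)))‖ -
        α * (∑ p ∈ IB z y i, (p:ℂ) ^ (-s)).re| ≤ 4 * (1 / 6) ^ (20 * RB Rs i) := by
    intro i hi
    rw [ec_NKc]
    have h1 := hG i (Finset.mem_range.1 hi)
    rw [← hs] at h1
    have h2 : 20 * ‖(α:ℂ) * ec s (xc (IB z y i))‖ ≤ ((20 * RB Rs i : ℕ) : ℝ) := by
      rw [norm_mul, Complex.norm_real, Real.norm_of_nonneg hα.le]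
      push_cast
      have h3 : α * ‖ec s (xc (IB z y i))‖ ≤ A * ‖ec s (xc (IB z y i))‖ := by gcongr
      linarith
    have h4 := texp (n := 20 * RB Rs i) (by unfold RB; omega) h2
    refine ⟨h4.1, ?_⟩
    have h5 := h4.2
    rw [Complex.re_ofReal_mul] at h5
    rw [← ec_xc s (IB z y i)]
    exact h5
  have e : ec s (BP (fun _ => α) z y 0 J Rs) =
      ∏ i ∈ range J, ec s (NKc (20 * RB Rs i) α (xc (IB z y i))) := by
    unfold BP
    rw [map_prod, ← Finset.range_eq_Ico]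
  refine ⟨by rw [e]; exact Finset.prod_ne_zero_iff.2 fun i hi => (hT i hi).1, ?_⟩
  rw [e, norm_prod, Real.log_prod fun i hi => norm_ne_zero_iff.2 (hT i hi).1,
    sum_PP hz hzy hJ, Complex.re_sum, Finset.mul_sum, ← Finset.sum_sub_distrib]
  refine (Finset.abs_sum_le_sum_abs _ _).trans ((Finset.sum_le_sum fun i hi => (hT i hi).2).trans ?_)
  rw [← Finset.mul_sum]
  have := blocks_sum Rs J
  linarith

/-- the Euler product -/
lemma log_Pi {ε : ℝ} {z : ℕ} {y δ u : ℝ} (hz : 144 ≤ z) (hzy : (z:ℝ) ≤ y) (hδ : 0 < δ)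
    (ht : ∀ F : Finset ℕ, (∀ p ∈ F, z ≤ p) → ∑ p ∈ F, (p:ℝ) ^ (-(3 / 2 : ℝ)) ≤ ε) :
    ∏ p ∈ PP z y, (1 - (p:ℂ) ^ (-(1 / 2 + δ + u * I : ℂ))) ≠ 0 ∧
    |Real.log ‖∏ p ∈ PP z y, (1 - (p:ℂ) ^ (-(1 / 2 + δ + u * I : ℂ)))‖ +
      (∑ p ∈ PP z y, (p:ℂ) ^ (-(1 / 2 + δ + u * I : ℂ))).re +
      (∑ p ∈ PP z y, ((p:ℂ) ^ (-(1 / 2 + δ + u * I : ℂ))) ^ 2 / 2).re| ≤ ε := by
  have hz' : (144:ℝ) ≤ z := by exact_mod_cast hz
  have hy : 0 < y := by linarith
  set s : ℂ := 1 / 2 + δ + u * I with hs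
  have hw : ∀ p ∈ PP z y, ‖(p:ℂ) ^ (-s)‖ ≤ 1 / 2 ∧ ‖(p:ℂ) ^ (-s)‖ ^ 3 ≤ (p:ℝ) ^ (-(3 / 2 : ℝ)) := by
    intro p hp
    obtain ⟨h1, h2, -⟩ := (mem_PP hy.le).1 hp
    have hp1 : (144:ℝ) ≤ p := by exact_mod_cast hz.trans h2
    have hp0 : (0:ℝ) < p := by linarith
    have h3 : ‖(p:ℂ) ^ (-s)‖ ≤ (p:ℝ) ^ (-(1 / 2 : ℝ)) := by
      rw [hs, norm_ps h1.pos]
      exact Real.rpow_le_rpow_of_exponent_le (by linarith) (by linarith)
    constructor
    · refine h3.trans ?_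
      have h4 : (p:ℝ) ^ (-(1 / 2 : ℝ)) ≤ (4:ℝ) ^ (-(1 / 2 : ℝ)) :=
        Real.rpow_le_rpow_of_nonpos (by norm_num) (by linarith) (by norm_num)
      refine h4.trans (le_of_eq ?_)
      rw [show (4:ℝ) = 2 ^ (2:ℝ) by norm_num, ← Real.rpow_mul (by norm_num)]
      norm_num
    · calc ‖(p:ℂ) ^ (-s)‖ ^ 3 ≤ ((p:ℝ) ^ (-(1 / 2 : ℝ))) ^ 3 := by gcongr
        _ = (p:ℝ) ^ (-(3 / 2 : ℝ)) := by
          rw [← Real.rpow_natCast, ← Real.rpow_mul hp0.le]
          norm_num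
  have hne : ∀ p ∈ PP z y, (1 - (p:ℂ) ^ (-s)) ≠ 0 := by
    intro p hp h
    have h1 := (hw p hp).1
    rw [← sub_eq_zero.1 h, norm_one] at h1
    norm_num at h1
  refine ⟨Finset.prod_ne_zero_iff.2 hne, ?_⟩
  rw [norm_prod, Real.log_prod fun p hp => norm_ne_zero_iff.2 (hne p hp), Complex.re_sum,
    Complex.re_sum, ← Finset.sum_add_distrib, ← Finset.sum_add_distrib]
  refine (Finset.abs_sum_le_sum_abs _ _).trans (le_trans (Finset.sum_le_sum fun p hp => ?_)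
    (ht (PP z y) fun p hp => ((mem_PP hy.le).1 hp).2.1))
  have h1 := fac (hw p hp).1
  have e3 : (((p:ℂ) ^ (-s)) ^ 2 / 2 : ℂ).re = (((p:ℂ) ^ (-s)) ^ 2).re / 2 := by
    rw [show (((p:ℂ) ^ (-s)) ^ 2 / 2 : ℂ) = ((p:ℂ) ^ (-s)) ^ 2 / ((2:ℝ) : ℂ) by norm_num,
      Complex.div_ofReal_re]
  rw [e3]
  exact h1.trans (hw p hp).2

/-- the squares -/
lemma norm_S2 {z : ℕ} {y δ u : ℝ} (hz : 144 ≤ z) (hzy : (z:ℝ) ≤ y) (hδ : 0 < δ) :
    ‖∑ p ∈ PP z y, ((p:ℂ) ^ (-(1 / 2 + δ + u * I : ℂ))) ^ 2 / 2‖ ≤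
      (∑ p ∈ PP z y, 1 / (p:ℝ)) / 2 := by
  have hz' : (144:ℝ) ≤ z := by exact_mod_cast hz
  have hy : 0 < y := by linarith
  rw [Finset.sum_div]
  refine (norm_sum_le _ _).trans (Finset.sum_le_sum fun p hp => ?_)
  obtain ⟨h1, h2, -⟩ := (mem_PP hy.le).1 hp
  have hp1 : (144:ℝ) ≤ p := by exact_mod_cast hz.trans h2
  have hp0 : (0:ℝ) < p := by linarith
  rw [norm_div, norm_pow, norm_ps h1.pos]
  have h3 : ((p:ℝ) ^ (-(1 / 2 + δ))) ^ 2 ≤ 1 / (p:ℝ) := by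
    have h5 : 1 / (p:ℝ) = (p:ℝ) ^ (-1 : ℝ) := by rw [Real.rpow_neg_one, one_div]
    rw [h5, ← Real.rpow_natCast, ← Real.rpow_mul hp0.le]
    apply Real.rpow_le_rpow_of_exponent_le (by linarith)
    push_cast
    linarith
  have h4 : ‖(2:ℂ)‖ = 2 := by norm_num
  rw [h4]
  gcongr

end CL

open CL

/-- **(CL)** pointwise comparison -/
theorem t_CL (hINV : S_INV) (hNRM : S_NRM) : S_CL := by
  intro A α hα hαA η hη
  -- the error
  set M0' : ℝ := 28 + 10 * α with hM0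
  have hM00 : 0 < M0' := by positivity
  set ε : ℝ := min (1 / 2) (min η 1 / (2 * M0')) with hεd
  have hmin : 0 < min η 1 := lt_min hη one_pos
  have hε : 0 < ε := lt_min (by norm_num) (by positivity)
  have hε1 : ε ≤ 1 / 2 := min_le_left _ _
  have hε2 : 2 * (M0' * ε) ≤ min η 1 := by
    have : ε ≤ min η 1 / (2 * M0') := min_le_right _ _
    rw [le_div_iff₀ (by positivity)] at this
    linarith
  obtain ⟨z1, hz1⟩ := hNRM α hα ε hε
  obtain ⟨z2, hz2⟩ := tail hε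
  obtain ⟨n1, hn1⟩ := exists_pow_lt_of_lt_one hε (show (1 / 6 : ℝ) < 1 by norm_num)
  refine ⟨max 1000 (max z1 z2), fun z hz => ?_⟩
  have hz1000 : 1000 ≤ z := (le_max_left _ _).trans hz
  have hzz1 : z1 ≤ z := (le_max_left _ _).trans ((le_max_right _ _).trans hz)
  have hzz2 : z2 ≤ z := (le_max_right _ _).trans ((le_max_right _ _).trans hz)
  obtain ⟨x0, δ1, hδ1, hN⟩ := hz1 z hzz1
  obtain ⟨δ2, hδ2, hPh⟩ := Ph_near α z hε
  set L : ℝ := -Real.log ε with hL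
  have hL0 : 0 ≤ L := by
    rw [hL, neg_nonneg]
    exact Real.log_nonpos hε.le (by linarith)
  have hlog2 : 0 < Real.log 2 := Real.log_pos (by norm_num)
  set C : ℝ := 10 * α + n1 + 1 + (4 + L) / Real.log 2 with hC
  have hCq : 0 ≤ (4 + L) / Real.log 2 := by positivity
  have hn1' : (0:ℝ) ≤ n1 := Nat.cast_nonneg _
  have hC0 : 0 < C := by positivity
  refine ⟨n1 + 1, x0, min (min δ1 δ2) (1 / 16), ε, C, lt_min (lt_min hδ1 hδ2) (by norm_num),
    min_le_right _ _, hε, hC0, ?_⟩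
  intro δ hδ hδ0 Rs J K Kq y hzy hJ hRs hx0 u a v ha hv hK hKq hG hEz
  have hz144 : 144 ≤ z := by omega
  have hR1 : 1 ≤ Rs := by omega
  have hδ1' : δ ≤ δ1 := hδ0.trans ((min_le_left _ _).trans (min_le_left _ _))
  have hδ2' : δ ≤ δ2 := hδ0.trans ((min_le_left _ _).trans (min_le_right _ _))
  -- abbreviations
  set s : ℂ := 1 / 2 + δ + u * I with hs
  have ha0 : 0 ≤ a := (norm_nonneg _).trans ha
  have hv0 : 0 ≤ v := (Finset.sum_nonneg fun p _ => by positivity).trans hv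
  set S1 : ℂ := ∑ p ∈ PP z y, (p:ℂ) ^ (-s) with hS1
  set S2 : ℂ := ∑ p ∈ PP z y, ((p:ℂ) ^ (-s)) ^ 2 / 2 with hS2
  set Pi : ℂ := ∏ p ∈ PP z y, (1 - (p:ℂ) ^ (-s)) with hPi
  have hS1a : ‖S1‖ ≤ a := by rw [ec_xc] at ha; exact ha
  have hS2v : ‖S2‖ ≤ v / 2 := by
    have := norm_S2 (u := u) hz144 hzy hδ
    rw [← hs, ← hS2] at this
    linarith
  -- the Euler product
  obtain ⟨hPi0, hPi1⟩ := log_Pi (ε := ε) (u := u) hz144 hzy hδ
    fun F hF => hz2 F fun p hp => hzz2.trans (hF p hp)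
  rw [← hs, ← hPi] at hPi0
  rw [← hs, ← hPi, ← hS1, ← hS2] at hPi1
  -- the blocks
  obtain ⟨hB0, hB1⟩ := log_BP hα hαA hz144 hzy hJ hR1 hG
  rw [← hs] at hB0
  rw [← hs, ← hS1] at hB1
  -- the squares
  have hKq1 : (n1:ℝ) + 1 ≤ Kq := by
    have h1 : C ≤ Kq := (le_mul_of_one_le_right hC0.le (by linarith)).trans hKq
    have h2 : 0 ≤ 10 * α := by linarith
    linarith
  have hKqn : n1 + 1 ≤ Kq := by exact_mod_cast hKq1
  have h20 : 20 * ‖(α:ℂ) * S2‖ ≤ (Kq:ℝ) := by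
    rw [norm_mul, Complex.norm_real, Real.norm_of_nonneg hα.le]
    have h1 : α * ‖S2‖ ≤ α * (v / 2) := by gcongr
    have h2 : 10 * α * v ≤ C * (v + 1) := by
      have h3 : 10 * α ≤ C := by linarith
      exact mul_le_mul h3 (by linarith) hv0 hC0.le
    linarith
  obtain ⟨hG0, hG1⟩ := texp (n := Kq) (by omega) h20
  have hGQ : ec s (GQ α z y Kq) = ∑ k ∈ range (Kq + 1), ((α:ℂ) * S2) ^ k / (k.factorial : ℂ) := by
    unfold GQ
    rw [ec_NKc, ec_sq]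
  rw [← hGQ] at hG0 hG1
  rw [Complex.re_ofReal_mul] at hG1
  -- the truncated inverse
  have hre1 := abs_le.1 (Complex.abs_re_le_norm S1)
  have hre2 := abs_le.1 (Complex.abs_re_le_norm S2)
  have hPi2 := abs_le.1 hPi1
  have hPilow : Real.exp (-(a + v + 1)) ≤ ‖Pi‖ := by
    rw [← Real.exp_log (norm_pos_iff.2 hPi0)]
    apply Real.exp_le_exp.2
    linarith
  have hinv := hINV z y K s a v hz1000 (by rw [hs]; simp; linarith) (by rw [ec_xc] at ha; exact ha) hv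
  rw [← hPi] at hinv
  set w : ℂ := (ec s (MB z y K) - Pi) / Pi with hw
  have hMBw : ec s (MB z y K) = Pi * (1 + w) := by
    rw [hw]
    field_simp
    ring
  have hwn : ‖w‖ ≤ ε := by
    rw [hw, norm_div, div_le_iff₀ (norm_pos_iff.2 hPi0)]
    refine hinv.trans ?_
    have h1 : (4 + L) * (a + v + 1) ≤ K * Real.log 2 := by
      have h2 : (4 + L) / Real.log 2 * (a + v + 1) ≤ K := by
        have h3 : (4 + L) / Real.log 2 ≤ C := by linarith
        have h4 : (4 + L) / Real.log 2 * (a + v + 1) ≤ C * (a + v + 1) := by gcongr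
        linarith
      rw [div_mul_eq_mul_div, div_le_iff₀ hlog2] at h2
      exact h2
    have h5 : (1 / 2 : ℝ) ^ K = Real.exp (-(K * Real.log 2)) := by
      rw [Real.exp_neg, Real.exp_nat_mul, Real.exp_log (by norm_num), one_div, inv_pow]
    have h6 : ε = Real.exp (-L) := by rw [hL, neg_neg, Real.exp_log hε]
    calc (1 / 2 : ℝ) ^ K * Real.exp (2 * a + 3 * v)
        = Real.exp (-(K * Real.log 2) + (2 * a + 3 * v)) := by rw [h5, ← Real.exp_add]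
      _ ≤ Real.exp (-L + -(a + v + 1)) := by
          apply Real.exp_le_exp.2
          have h7 := mul_nonneg hL0 ha0
          have h8 := mul_nonneg hL0 hv0
          linarith
      _ = ε * Real.exp (-(a + v + 1)) := by rw [Real.exp_add, ← h6]
      _ ≤ ε * ‖Pi‖ := by gcongr
  have hw1 := log_norm (hwn.trans hε1)
  have h1w : 1 + w ≠ 0 := by
    intro h0
    have h1 : w = -1 := by linear_combination h0
    rw [h1, norm_neg, norm_one] at hwn
    linarith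
  -- zeta
  set Pd : ℝ := Ph z δ (pt (Sm z) u) with hPd
  have hPd0 : 0 < Pd := Ph_pos z hδ.le _
  have hE1 := log_norm (hEz.trans hε1)
  have h1E : 1 + Ez z y K s ≠ 0 := by
    intro h0
    have h1 : Ez z y K s = -1 := by linear_combination h0
    rw [h1, norm_neg, norm_one] at hEz
    linarith
  have hprod : ‖riemannZeta s‖ * Pd * (‖Pi‖ * ‖1 + w‖) = ‖1 + Ez z y K s‖ := by
    have h1 : 1 + Ez z y K s =
        riemannZeta s * (∏ p ∈ Sm z, (1 - (p:ℂ) ^ (-s))) * ec s (MB z y K) := by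
      unfold Ez
      ring
    rw [h1, norm_mul, norm_mul, hMBw, norm_mul, hPd, Ph_prod, ← hs]
  have hPi00 : 0 < ‖Pi‖ := norm_pos_iff.2 hPi0
  have h1w0 : 0 < ‖1 + w‖ := norm_pos_iff.2 h1w
  have h1E0 : 0 < ‖1 + Ez z y K s‖ := norm_pos_iff.2 h1E
  have hZ0 : 0 < ‖riemannZeta s‖ := by
    rcases (norm_nonneg (riemannZeta s)).lt_or_eq with h | h
    · exact h
    · rw [← h] at hprod
      simp at hprod
      rw [← hprod] at h1E0
      exact absurd h1E0 (lt_irrefl _)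
  have hlZ : Real.log ‖riemannZeta s‖ = Real.log ‖1 + Ez z y K s‖ - Real.log Pd -
      (Real.log ‖Pi‖ + Real.log ‖1 + w‖) := by
    rw [← hprod, Real.log_mul (mul_pos hZ0 hPd0).ne' (mul_pos hPi00 h1w0).ne',
      Real.log_mul hZ0.ne' hPd0.ne', Real.log_mul hPi00.ne' h1w0.ne']
    ring
  -- the primes below `z`
  set q0 : ℝ := Ph z 0 (pt (Sm z) u) ^ (-(2 * α)) with hq0
  have hq00 : 0 < q0 := Real.rpow_pos_of_pos (Ph_pos z le_rfl _) _
  have hq : Real.log (Pd ^ (-(2 * α))) = -(2 * α) * Real.log Pd := Real.log_rpow hPd0 _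
  have hnear := hPh δ hδ.le hδ2' (pt (Sm z) u)
  rw [← hq0, ← hPd] at hnear
  have hqd0 : 0 < Pd ^ (-(2 * α)) := Real.rpow_pos_of_pos hPd0 _
  have hlq : |-(2 * α) * Real.log Pd - Real.log q0| ≤ 2 * ε := by
    rw [← hq, ← Real.log_div hqd0.ne' hq00.ne']
    refine (log_near ?_ hε1).2
    rw [show Pd ^ (-(2 * α)) / q0 - 1 = (Pd ^ (-(2 * α)) - q0) / q0 by field_simp, abs_div,
      abs_of_pos hq00, div_le_iff₀ hq00]
    exact hnear
  -- the normalisation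
  have hNN := hN δ hδ hδ1' y J hzy hJ hx0
  obtain ⟨hN0, hNlog⟩ := log_near hNN hε1
  have haa : 0 < aa α := Pool.Agent.H306R2.aF_pos hα
  have hE00 : 0 < E0 α (Sm z) := QC.E0_pos α (QC.Sm_prime z)
  have hcst : 0 < (2 * δ) ^ (α ^ 2) / aa α := div_pos (Real.rpow_pos_of_pos (by linarith) _) haa
  have hexp := Real.exp_pos (α ^ 2 * VB δ z y 0 J)
  rw [Real.log_mul hcst.ne' (mul_pos hE00 hexp).ne', Real.log_mul hE00.ne' hexp.ne',
    Real.log_exp] at hNlog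
  -- the two sides
  set T : ℝ := mz α z u * (WP α z Rs y J δ u * ‖ec s (GQ α z y Kq)‖ ^ 2) with hT
  have hmz : mz α z u = q0 / E0 α (Sm z) := by
    unfold mz
    rw [M0_Ph]
  have hB00 : 0 < ‖ec s (BP (fun _ => α) z y 0 J Rs)‖ := norm_pos_iff.2 hB0
  have hG00 : 0 < ‖ec s (GQ α z y Kq)‖ := norm_pos_iff.2 hG0
  have hWP : WP α z Rs y J δ u = ‖ec s (BP (fun _ => α) z y 0 J Rs)‖ ^ 2 /
      Real.exp (α ^ 2 * VB δ z y 0 J) := rfl
  have hmz0 : 0 < q0 / E0 α (Sm z) := div_pos hq00 hE00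
  have hWP0 : 0 < ‖ec s (BP (fun _ => α) z y 0 J Rs)‖ ^ 2 / Real.exp (α ^ 2 * VB δ z y 0 J) :=
    div_pos (pow_pos hB00 2) hexp
  have hT0 : 0 < T := by
    rw [hT, hmz, hWP]
    exact mul_pos hmz0 (mul_pos hWP0 (pow_pos hG00 2))
  have hlT : Real.log T = Real.log q0 - Real.log (E0 α (Sm z)) +
      (2 * Real.log ‖ec s (BP (fun _ => α) z y 0 J Rs)‖ - α ^ 2 * VB δ z y 0 J +
        2 * Real.log ‖ec s (GQ α z y Kq)‖) := by
    rw [hT, hmz, hWP, Real.log_mul hmz0.ne' (mul_pos hWP0 (pow_pos hG00 2)).ne',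
      Real.log_mul hWP0.ne' (pow_pos hG00 2).ne', Real.log_div hq00.ne' hE00.ne',
      Real.log_div (pow_pos hB00 2).ne' hexp.ne', Real.log_pow, Real.log_pow, Real.log_exp]
    push_cast
    ring
  have hZn : Zn α δ u = (2 * δ) ^ (α ^ 2) / aa α * ‖riemannZeta s‖ ^ (2 * α) := rfl
  have hZp : 0 < ‖riemannZeta s‖ ^ (2 * α) := Real.rpow_pos_of_pos hZ0 _
  have hZn0 : 0 < Zn α δ u := by
    rw [hZn]
    exact mul_pos hcst hZp
  have hlZn : Real.log (Zn α δ u) = Real.log ((2 * δ) ^ (α ^ 2) / aa α) +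
      2 * α * Real.log ‖riemannZeta s‖ := by
    rw [hZn, Real.log_mul hcst.ne' hZp.ne', Real.log_rpow hZ0]
  -- the difference of the logarithms
  have hp6 : (1 / 6 : ℝ) ^ Rs ≤ ε := by
    refine le_trans (pow_le_pow_of_le_one (by norm_num) (by norm_num) (by omega)) hn1.le
  have hp6' : (1 / 6 : ℝ) ^ Kq ≤ ε := by
    refine le_trans (pow_le_pow_of_le_one (by norm_num) (by norm_num) (by omega)) hn1.le
  have hkey : |Real.log (Zn α δ u / T)| ≤ M0' * ε := by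
    rw [Real.log_div hZn0.ne' hT0.ne', hlZn, hlT, hlZ]
    have b1 := abs_le.1 hNlog
    have b2 := abs_le.1 hlq
    have b3 := abs_le.1 hE1
    have b4 := abs_le.1 hw1
    have b5 := hPi2
    have b6 := abs_le.1 hB1
    have b7 := abs_le.1 hG1
    have c3 : |α * Real.log ‖1 + Ez z y K s‖| ≤ α * (2 * ε) := by
      rw [abs_mul, abs_of_pos hα]
      gcongr
      linarith
    have c4 : |α * Real.log ‖1 + w‖| ≤ α * (2 * ε) := by
      rw [abs_mul, abs_of_pos hα]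
      gcongr
      linarith
    have c5 : |α * (Real.log ‖Pi‖ + S1.re + S2.re)| ≤ α * ε := by
      rw [abs_mul, abs_of_pos hα]
      gcongr
    have d3 := abs_le.1 c3
    have d4 := abs_le.1 c4
    have d5 := abs_le.1 c5
    rw [hM0, abs_le]
    have g1 : (28 + 10 * α) * ε = 28 * ε + 10 * (α * ε) := by ring
    rw [g1]
    generalize Real.log ((2 * δ) ^ (α ^ 2) / aa α) = l1 at *
    generalize Real.log (E0 α (Sm z)) = l2 at *
    generalize Real.log ‖1 + Ez z y K s‖ = l3 at *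
    generalize Real.log ‖1 + w‖ = l4 at *
    generalize Real.log ‖Pi‖ = l5 at *
    generalize Real.log ‖ec s (BP (fun _ => α) z y 0 J Rs)‖ = l6 at *
    generalize Real.log ‖ec s (GQ α z y Kq)‖ = l7 at *
    clear hN hz1 hz2 hPh
    constructor <;> linarith [b1.1, b1.2, b2.1, b2.2, d3.1, d3.2, d4.1, d4.2, d5.1, d5.2, b6.1,
      b6.2, b7.1, b7.2, hp6, hp6']
  have hM1 : M0' * ε ≤ 1 := by
    have := hε2.trans (min_le_right _ _)
    linarith
  have hfin := exp_near (hkey.trans hM1)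
  rw [Real.exp_log (div_pos hZn0 hT0)] at hfin
  have h9 : |Zn α δ u / T - 1| ≤ η := by
    refine hfin.trans ?_
    have := hε2.trans (min_le_left _ _)
    linarith
  rw [show Zn α δ u / T - 1 = (Zn α δ u - T) / T by field_simp, abs_div, abs_of_pos hT0,
    div_le_iff₀ hT0] at h9
  exact h9

end Pool.Agent.V5helper27.HM
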